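import Pool.Agent.Lib.MP_51f413_gt.CMain

namespace Pool.Agent.Results.MP_51f413_gt.ConstantMeanCurvature

/-- A finite type surface of the unit three-sphere with constant mean curvature is minimal, or lies
in a hyperplane, or lies in a product of two circles. -/
theorem result :
    ∀ (U : Set (Fin 2 → ℝ)) (x : (Fin 2 → ℝ) → Fin 4 → ℝ),
      IsOpen U → IsConnected U →
      ContDiffOn ℝ ((⊤ : ℕ∞) : WithTop ℕ∞) x U →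
      (∀ p ∈ U, Function.Injective (fderiv ℝ x p)) →
      (∀ p ∈ U, ∑ m : Fin 4, x p m ^ 2 = 1) →
      ∀ (g : (Fin 2 → ℝ) → Matrix (Fin 2) (Fin 2) ℝ),
      (∀ (p : Fin 2 → ℝ) (i j : Fin 2),
        g p i j = ∑ m : Fin 4,
          (fderiv ℝ x p (Pi.single i (1 : ℝ))) m * (fderiv ℝ x p (Pi.single j (1 : ℝ))) m) →
      ∀ (L : ((Fin 2 → ℝ) → ℝ) → (Fin 2 → ℝ) → ℝ),
      (∀ (f : (Fin 2 → ℝ) → ℝ) (p : Fin 2 → ℝ),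
        L f p = (Real.sqrt (g p).det)⁻¹ *
          ∑ i : Fin 2, ∑ j : Fin 2,
            fderiv ℝ (fun q : Fin 2 → ℝ =>
              Real.sqrt (g q).det * (g q)⁻¹ i j * fderiv ℝ f q (Pi.single j (1 : ℝ)))
              p (Pi.single i (1 : ℝ))) →
      (∃ (c : Fin 4 → ℝ) (k : ℕ) (y : Fin k → (Fin 2 → ℝ) → Fin 4 → ℝ) (μ : Fin k → ℝ),
        (∀ i, ContDiffOn ℝ ((⊤ : ℕ∞) : WithTop ℕ∞) (y i) U) ∧
        (∀ i, ∃ p ∈ U, ∃ q ∈ U, y i p ≠ y i q) ∧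
        (∀ i, ∀ p ∈ U, ∀ m : Fin 4, L (fun q => y i q m) p = μ i * y i p m) ∧
        (∀ p ∈ U, x p = c + ∑ i, y i p)) →
      (∃ c : ℝ, ∀ p ∈ U, ∑ m : Fin 4, (L (fun q => x q m) p + 2 * x p m) ^ 2 = c) →
      (∀ p ∈ U, ∀ m : Fin 4, L (fun q => x q m) p = -2 * x p m) ∨
      (∃ (a : Fin 4 → ℝ) (d : ℝ), a ≠ 0 ∧ ∀ p ∈ U, ∑ m : Fin 4, a m * x p m = d) ∨
      (∃ (a : ℝ) (u v : Fin 4 → ℝ), 0 < a ∧ a < 1 ∧
        ∑ m : Fin 4, u m ^ 2 = 1 ∧ ∑ m : Fin 4, v m ^ 2 = 1 ∧ ∑ m : Fin 4, u m * v m = 0 ∧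
        ∀ p ∈ U, (∑ m : Fin 4, u m * x p m) ^ 2 + (∑ m : Fin 4, v m * x p m) ^ 2 = a ^ 2) :=
  Pool.Agent.Lib.MP_51f413_gt.cmc_main

end Pool.Agent.Results.MP_51f413_gt.ConstantMeanCurvature
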